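import Mathlib
import Pool.Agent.Results.MP_918176_nt.Both

open PowerSeries Finset Pool.Agent.H25.Dis Pool.Agent.H25.Bin Pool.Agent.Results.MP_918176_nt.Both

namespace Pool.Agent.Results.MP_06821b_nt.Cong

/-- The series `1 / (1 - x ^ d) = 1 + x ^ d + x ^ (2 d) + ⋯`. -/
noncomputable def g (d : ℕ) : ℤ⟦X⟧ := PowerSeries.mk fun j => if d ∣ j then 1 else 0

/-- `b m n`: the coefficient of `x ^ n` in `∏ i, (1 - x ^ 2 ^ i) ^ (-m)`; the factors with
`i > n` are `1` modulo `x ^ (n + 1)` and are left out. -/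
noncomputable def b (m n : ℕ) : ℤ := coeff n (∏ i ∈ range (n + 1), g (2 ^ i) ^ m)

lemma xy : X * y = y - 1 := by linear_combination -y_mul

lemma b_eq (m n : ℕ) : b m n = coeff n ((1 - X) ^ m * F m m) := by
  rw [← uniq (F_eq 0 m) (B := (1 - X) ^ m * F m m) ?_ (by simp [F_zero]), F, coeff_mk, cc,
    pow_zero, one_mul]
  · rfl
  · have : (1 - X) * (2 * y - 1) = y * (1 - X ^ 2) := by linear_combination (X - 1) * xy
    simp only [map_mul, map_pow, map_sub, map_one, expand_X, pow_zero, one_mul, zero_add]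
    rw [← mul_assoc, ← mul_pow, ← this, mul_pow, mul_assoc, ← F_eq']

def P (D : ℕ) : AddSubgroup ℤ⟦X⟧ := AddSubgroup.closure {A | ∃ i ≤ D, A = X ^ i}

noncomputable def Z (φ : ℕ → ℕ → Prop) : AddSubgroup ℤ⟦X⟧ := (Sp φ).map (.mulLeft z)

noncomputable def N (D : ℕ) (φ : ℕ → ℕ → Prop) : AddSubgroup ℤ⟦X⟧ :=
  P D ⊔ (AddSubgroup.zmultiples y ⊔ Z φ)

variable {D : ℕ} {φ : ℕ → ℕ → Prop} {S : AddSubgroup ℤ⟦X⟧} {A B : ℤ⟦X⟧}

lemma indP (f : ℤ⟦X⟧ →+ ℤ⟦X⟧) (hA : A ∈ P D) (h : ∀ i ≤ D, f (X ^ i) ∈ S) : f A ∈ S :=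
  (AddSubgroup.closure_le (S.comap f)).2 (by rintro _ ⟨i, h1, rfl⟩; exact h i h1) hA

lemma indN (f : ℤ⟦X⟧ →+ ℤ⟦X⟧) (hA : A ∈ N D φ) (h1 : ∀ i ≤ D, f (X ^ i) ∈ S) (h2 : f y ∈ S)
    (h3 : ∀ B ∈ Sp φ, f (z * B) ∈ S) : f A ∈ S :=
  (sup_le (fun _ h => indP f h h1) (sup_le (AddSubgroup.zmultiples_le_of_mem h2)
    (by rintro _ ⟨B, h, rfl⟩; exact h3 B h)) : N D φ ≤ S.comap f) hA

lemma mX {i : ℕ} (h : i ≤ D) : X ^ i ∈ P D := AddSubgroup.subset_closure ⟨i, h, rfl⟩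

lemma mP (h : A ∈ P D) : A ∈ N D φ := AddSubgroup.mem_sup_left h

lemma my : y ∈ N D φ :=
  AddSubgroup.mem_sup_right (AddSubgroup.mem_sup_left (AddSubgroup.mem_zmultiples _))

lemma mz (h : B ∈ Sp φ) : z * B ∈ N D φ :=
  AddSubgroup.mem_sup_right (AddSubgroup.mem_sup_right ⟨B, h, rfl⟩)

abbrev K (k e : ℕ) : Prop := k ≤ 2 * e

lemma Xz (i : ℕ) (h : B ∈ Sp K) : X ^ i * (z * B) ∈ N i K := by
  induction i with
  | zero => simpa using mz h
  | succ i ih =>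
    have h1 : (1 : ℤ⟦X⟧) ∈ N (i + 1) K := mP (by simpa using mX (i := 0) (by omega))
    rw [pow_succ', mul_assoc]
    refine indN (.mulLeft X) ih (fun j hj => mP ?_) ?_ fun B hB =>
      ind ((AddMonoidHom.mulLeft X).comp (.mulLeft z)) hB fun k e h => ?_
    · simpa [pow_succ'] using mX (i := j + 1) (by omega)
    · simpa [xy] using sub_mem my h1
    · cases k with
      | zero =>
        convert nsmul_mem (add_mem (mz (one_mem (φ := K) le_rfl)) (sub_mem h1 my)) (2 ^ e) using 1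
        simp [z]; linear_combination 2 ^ e * (y - 1) * xy
      | succ k =>
        convert mz (sub_mem (gen h) (gen (φ := K) (k := k) (e := e) (by omega))) using 1
        simp; linear_combination 2 ^ e * z * y ^ k * xy

lemma UP (h : A ∈ P D) : U 0 A ∈ P (D / 2) := indP _ h fun i hi => by
  obtain ⟨j, rfl | rfl⟩ := i.even_or_odd'
  · have := U0 (X ^ j) 0
    simp only [map_pow, expand_X, ← pow_mul, map_zero, mul_zero, add_zero] at this
    exact this.symm ▸ mX (by omega)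
  · have := U0 0 (X ^ j)
    simp only [map_pow, expand_X, ← pow_mul, map_zero, zero_add, ← pow_succ'] at this
    exact this.symm ▸ zero_mem _

lemma Uy : U 0 y = y := by ext; simp [coeff_U, y]

lemma UN (h : A ∈ N D K) : U 0 A ∈ N (D / 2) fun k e => k + 1 ≤ e :=
  indN _ h (fun i hi => mP (UP (mX hi))) (Uy.symm ▸ my) fun B hB => by
    obtain ⟨W, h1, h2⟩ := Uz (ψ := fun k e => k + 1 ≤ e) hB (by omega)
    exact h2 ▸ mz h1

lemma s_pow (m : ℕ) : ∃ W ∈ Sp K, (2 * y - 1) ^ 2 ^ (m + 1) = 1 + 2 ^ (m + 2) * (z * W) := by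
  induction m with
  | zero => exact ⟨1, one_mem le_rfl, by simpa using s_sq⟩
  | succ m ih =>
    obtain ⟨W, h1, h2⟩ := ih
    exact ⟨_, add_mem h1 (mul (mul (χ := K) (two_mem (m + 1)) z_mem (by omega))
      (mul (χ := K) h1 h1 (by omega)) (by omega)), by rw [pow_succ 2 (m + 1), pow_mul, h2]; ring⟩

lemma s_even (k : ℕ) : ∃ W ∈ Sp fun k e => k + 2 ≤ e, (2 * y - 1) ^ (2 * k) = 1 + z * W := by
  induction k with
  | zero => exact ⟨0, zero_mem _, by simp⟩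
  | succ k ih =>
    obtain ⟨W, h1, h2⟩ := ih
    exact ⟨_, add_mem h1 (mul (two_mem 2) (s_mem (2 * k)) (by omega)), by
      rw [mul_add, pow_add, mul_one, s_sq]; linear_combination h2⟩

lemma U2 (e : ℕ) (A : ℤ⟦X⟧) : U 0 (2 ^ e * A) = 2 ^ e * U 0 A := by
  simpa using map_nsmul (U 0) (2 ^ e) A

noncomputable def V (m : ℕ) : ℤ⟦X⟧ →+ ℤ⟦X⟧ := (U 0).comp (.mulRight ((2 * y - 1) ^ m))

lemma VZ {d : ℕ} (m : ℕ) (h : A ∈ Z fun k e => d + k ≤ e) :
    V m A ∈ Z fun k e => d + 1 + k ≤ e := by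
  obtain ⟨B, h, rfl⟩ := h
  obtain ⟨W, h1, h2⟩ := Uz (ψ := fun k e => d + 1 + k ≤ e)
    (mul (χ := fun k e => d + k ≤ e) h (s_mem m) (by omega)) (by omega)
  exact ⟨W, h1, by simpa [V, mul_assoc] using h2.symm⟩

lemma start (m j : ℕ) : ∃ p ∈ P (2 ^ (m + 1) / 2 ^ j), ∃ Q ∈ N (2 ^ (m + 1) / 2 ^ j)
    fun k e => k + 1 ≤ e, (V (2 ^ (m + 1)))^[j] ((1 - X) ^ 2 ^ (m + 1)) = p + 2 ^ (m + 2) * Q := by
  induction j with
  | zero =>
    refine ⟨(1 - X) ^ 2 ^ (m + 1), ?_, 0, zero_mem _, by simp⟩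
    rw [pow_zero, Nat.div_one]
    induction 2 ^ (m + 1) with
    | zero => exact mX le_rfl
    | succ n ih =>
      rw [pow_succ, mul_sub, mul_one]
      exact sub_mem (indP (.id _) ih fun i hi => mX (by omega))
        (indP (.mulRight X) ih fun i hi => mX (i := i + 1) (by omega))
  | succ j ih =>
    obtain ⟨p, h1, Q, h2, h3⟩ := ih
    obtain ⟨W, h4, h5⟩ := s_pow m
    obtain ⟨W', h6, h7⟩ := s_even (2 ^ m)
    rw [pow_succ 2 j, ← Nat.div_div_eq_div_mul]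
    generalize 2 ^ (m + 1) / 2 ^ j = D at *
    have mon {i} (hi : i ≤ D) {A} (h : A ∈ N i K) : A ∈ N D K :=
      indN (.id _) h (fun j hj => mP (mX (hj.trans hi))) my fun B hB => mz hB
    refine ⟨_, UP h1, _, UN (add_mem (indP (.mulRight (z * W)) h1 fun i hi => mon hi (Xz i h4))
      (indN (.mulRight (1 + z * W')) h2 (fun i hi => ?_) ?_ fun B hB => ?_)), ?_⟩
    · simpa [mul_add] using add_mem (mP (mX hi)) (mon hi (Xz i (mono h6 (by omega))))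
    · simpa [mul_add, mul_left_comm y] using add_mem my (mz (mul (χ := K)
        (by simpa using gen (φ := fun k e => k = 1 ∧ e = 0) ⟨rfl, rfl⟩) h6 (by omega)))
    · simpa [mul_add, mul_assoc] using add_mem (mz (mono hB (by omega))) (mz (mul (χ := K) hB
        (mul (χ := K) z_mem h6 (by omega)) (by omega)))
    · rw [Function.iterate_succ_apply', h3, ← U2, ← map_add, ← h7, ← pow_succ']
      simp only [V, AddMonoidHom.comp_apply, AddMonoidHom.coe_mulRight]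
      congr 1
      linear_combination p * h5

lemma diff (m : ℕ) : V (2 ^ (m + 1)) ((V (2 ^ (m + 1)))^[m + 2] ((1 - X) ^ 2 ^ (m + 1))) -
    (V (2 ^ (m + 1)))^[m + 2] ((1 - X) ^ 2 ^ (m + 1)) ∈ Z fun k e => m + 3 + k ≤ e := by
  obtain ⟨p, h1, Q, h2, h3⟩ := start m (m + 2)
  obtain ⟨W, h4, h5⟩ := s_pow m
  obtain ⟨W', h6, h7⟩ := s_even (2 ^ m)
  rw [Nat.div_eq_of_lt (by gcongr <;> omega)] at h1 h2
  have e1 : V (2 ^ (m + 1)) 1 - 1 ∈ Z fun k e => m + 3 + k ≤ e := by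
    obtain ⟨T, h8, h9⟩ := Uz (ψ := fun k e => k + 1 ≤ e) h4 (by omega)
    refine ⟨_, mul (two_mem (m + 2)) h8 (by omega), ?_⟩
    simp [V, h5, U2, h9, show U 0 1 = 1 from (U_C 1).1]; ring
  have mon {d e A} (h : A ∈ Z fun k e => d + k ≤ e) (he : e ≤ d) : A ∈ Z fun k f => e + k ≤ f :=
    AddSubgroup.map_mono (fun _ h => mono h (by omega)) h
  obtain ⟨T, h8, h9⟩ := indN (S := Z fun k e => 1 + k ≤ e) (V (2 ^ (m + 1)) - .id _) h2
    (fun i hi => by simpa [show i = 0 by omega] using mon (e := 1) e1 (by omega)) (by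
      obtain ⟨T, h8, h9⟩ := Uz (ψ := fun k e => 1 + k ≤ e) (mul (χ := K) h6
        (gen (φ := fun k e => k = 1 ∧ e = 0) ⟨rfl, rfl⟩) (by omega)) (by omega)
      refine ⟨T, h8, ?_⟩
      simp [V, pow_succ' 2 m, h7, mul_add, Uy, ← h9, mul_comm y, mul_assoc])
    fun B hB => sub_mem (mon (VZ (d := 1) _ ⟨B, mono hB (by omega), rfl⟩) (by omega))
      ⟨B, mono hB (by omega), rfl⟩
  convert add_mem (indP (V (2 ^ (m + 1)) - .id _) h1 fun i hi => by
    simpa [show i = 0 by omega] using e1) (⟨_, mul (two_mem (m + 2)) h8 (by omega), rfl⟩ :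
      _ ∈ Z fun k e => m + 3 + k ≤ e) using 1
  simp only [AddMonoidHom.coe_mulLeft, AddMonoidHom.sub_apply, AddMonoidHom.id_apply] at h9 ⊢
  rw [h3, map_add, mul_left_comm, h9]
  simp only [V, AddMonoidHom.comp_apply, AddMonoidHom.coe_mulRight, mul_assoc, U2]
  ring

theorem result (m n k : ℕ) (hm : 1 ≤ m) (hk : m + 2 ≤ k) :
    b (2 ^ m) (2 ^ k * n) ≡ b (2 ^ m) (2 ^ (k - 1) * n) [ZMOD 2 ^ k] ∧
    b (2 ^ m) (2 ^ (k + 1) * n) ≡ b (2 ^ m) (2 ^ (k - 1) * n) [ZMOD 2 ^ k] := by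
  obtain ⟨m, rfl⟩ := Nat.exists_eq_add_of_le' hm
  have h1 (j n : ℕ) (A) : coeff (2 ^ j * n) (A * F (2 ^ (m + 1)) (2 ^ (m + 1))) =
      coeff n ((V (2 ^ (m + 1)))^[j] A * F (2 ^ (m + 1)) (2 ^ (m + 1))) := by
    induction j generalizing A with
    | zero => simp
    | succ j ih => rw [pow_succ' 2 j, mul_assoc, step, ih]; rfl
  have h2 (j : ℕ) : (V (2 ^ (m + 1)))^[j + (m + 2) + 1] ((1 - X) ^ 2 ^ (m + 1)) -
      (V (2 ^ (m + 1)))^[j + (m + 2)] ((1 - X) ^ 2 ^ (m + 1)) ∈ Z fun k e => m + 3 + j + k ≤ e := by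
    induction j with
    | zero => simpa only [zero_add, Function.iterate_succ_apply'] using diff m
    | succ j ih =>
      simpa only [Nat.add_right_comm j 1, Function.iterate_succ_apply', map_sub,
        ← add_assoc _ j] using VZ _ ih
  have h3 (j : ℕ) : b (2 ^ (m + 1)) (2 ^ (j + (m + 2) + 1) * n) ≡
      b (2 ^ (m + 1)) (2 ^ (j + (m + 2)) * n) [ZMOD 2 ^ (j + (m + 2) + 1)] := by
    obtain ⟨B, h3, h4⟩ := h2 j
    obtain ⟨E, rfl⟩ := dvd_of_mem (d := j + (m + 2) + 1) h3 (by omega)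
    rw [Int.modEq_comm, Int.modEq_iff_dvd, b_eq, b_eq, h1, h1, ← map_sub, ← sub_mul, ← h4,
      AddMonoidHom.coe_mulLeft, mul_left_comm, mul_assoc, show (2 : ℤ⟦X⟧) = C 2 from rfl,
      ← map_pow, coeff_C_mul]
    exact dvd_mul_right _ _
  obtain ⟨j, rfl⟩ : ∃ j, k = j + (m + 2) + 1 := ⟨k - (m + 3), by omega⟩
  have := h3 (j + 1)
  rw [Nat.add_right_comm j 1] at this
  exact ⟨h3 j, (this.of_dvd (pow_dvd_pow _ (by omega))).trans (h3 j)⟩

end Pool.Agent.Results.MP_06821b_nt.Cong
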